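import Mathlib

/-! Weak phase retrieval in real Euclidean space. -/

set_option autoImplicit false

namespace Pool.Agent.MP_e57dcf_an

/-- `x` and `y` weakly have the same phase -/
def WeaklySamePhase {n : ℕ} (x y : EuclideanSpace ℝ (Fin n)) : Prop :=
  ∃ θ : ℝ, (θ = 1 ∨ θ = -1) ∧
    ∀ k : Fin n, x k * y k ≠ 0 → Real.sign (x k) = θ * Real.sign (y k)

/-- the family `f` does weak phase retrieval -/
def DoesWeakPR {n m : ℕ} (f : Fin m → EuclideanSpace ℝ (Fin n)) : Prop :=
  ∀ x y : EuclideanSpace ℝ (Fin n),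
    (∀ i, |inner ℝ x (f i)| = |inner ℝ y (f i)|) → WeaklySamePhase x y

end Pool.Agent.MP_e57dcf_an
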